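import Pool.Agent.N898.BU.Stm2

/-!
# From the Euler product of a Rankin-Selberg L-function to the Dirichlet series
-/

set_option autoImplicit false

namespace Pool.Agent.N95.BU

open Filter Topology Complex
open Pool.Agent.N210.FV
open Pool.Agent.N898.BU
open scoped ComplexConjugate

/-- the parameters of the Rankin-Selberg product -/
noncomputable def be (α : ℕ → ℕ → ℂ) (p : ℕ) (x : ℕ × ℕ) : ℂ := α p x.1 * conj (α p x.2)

/-- the indices of the parameters -/
def ix (n : ℕ) : Finset (ℕ × ℕ) := Finset.range n ×ˢ Finset.range n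

variable {S : Finset ℕ} {n : ℕ} {α : ℕ → ℕ → ℂ} {R : ℂ → ℂ}

theorem ps_eq (n : ℕ) (α : ℕ → ℕ → ℂ) (p k : ℕ) :
    ps (ix n) (be α) p k = ((‖∑ j ∈ Finset.range n, α p j ^ k‖ ^ 2 : ℝ) : ℂ) := by
  unfold ps ix be
  push_cast
  rw [← Complex.mul_conj', map_sum, Finset.sum_mul_sum, Finset.sum_product]
  refine Finset.sum_congr rfl fun i _ => Finset.sum_congr rfl fun j _ => ?_
  rw [mul_pow, map_pow]

/-- the coefficients, real -/
noncomputable def rb (S : Finset ℕ) (n : ℕ) (α : ℕ → ℕ → ℂ) (i : PS S × ℕ) : ℝ :=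
  ‖∑ j ∈ Finset.range n, α i.1 j ^ (i.2 + 1)‖ ^ 2 / (i.2 + 1)

theorem rb_nonneg (i : PS S × ℕ) : 0 ≤ rb S n α i := by
  unfold rb
  positivity

theorem bt_eq (i : PS S × ℕ) : bt S (ps (ix n) (be α)) i = (rb S n α i : ℂ) := by
  unfold bt rb
  rw [ps_eq]
  push_cast
  rfl

theorem prod_ix {p : ℕ} {s : ℂ} :
    ∏ x ∈ ix n, (1 - be α p x * (p : ℂ) ^ (-s))⁻¹ =
      ∏ i ∈ Finset.range n, ∏ j ∈ Finset.range n,
        (1 - α p i * conj (α p j) * (p : ℂ) ^ (-s))⁻¹ := by
  unfold ix be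
  rw [Finset.prod_product]

theorem u_lt (p : PS S) (h : ∀ i < n, ‖α p i‖ ^ 2 < (p : ℕ)) {x : ℕ × ℕ} (hx : x ∈ ix n) {s : ℂ}
    (hs : 1 < s.re) : ‖be α p x * ((p : ℕ) : ℂ) ^ (-s)‖ < 1 := by
  have h1 : ‖((p : ℕ) : ℂ) ^ (-s)‖ = ((p : ℕ) : ℝ) ^ (-s.re) := by
    rw [← ofReal_natCast, Complex.norm_cpow_eq_rpow_re_of_pos p.pos, neg_re]
  have hx1 := Finset.mem_product.1 hx
  have ha := h x.1 (Finset.mem_range.1 hx1.1)
  have hb := h x.2 (Finset.mem_range.1 hx1.2)
  have h2 : ((p : ℕ) : ℝ) ^ (-s.re) ≤ ((p : ℕ) : ℝ) ^ (-1 : ℝ) :=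
    Real.rpow_le_rpow_of_exponent_le p.one_lt.le (by linarith)
  rw [Real.rpow_neg_one] at h2
  rw [norm_mul, h1]
  unfold be
  rw [norm_mul, RCLike.norm_conj]
  have hp := p.pos
  have h3 : ‖α p x.1‖ * ‖α p x.2‖ < (p : ℕ) := by
    nlinarith [norm_nonneg (α p x.1), norm_nonneg (α p x.2),
      sq_nonneg (‖α p x.1‖ - ‖α p x.2‖)]
  calc ‖α p x.1‖ * ‖α p x.2‖ * ((p : ℕ) : ℝ) ^ (-s.re) ≤
      ‖α p x.1‖ * ‖α p x.2‖ * ((p : ℕ) : ℝ)⁻¹ := by gcongr
    _ < (p : ℕ) * ((p : ℕ) : ℝ)⁻¹ := by gcongr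
    _ = 1 := mul_inv_cancel₀ hp.ne'

/-- one prime -/
theorem hasSum_prime (p : PS S) (h : ∀ i < n, ‖α p i‖ ^ 2 < (p : ℕ)) {s : ℂ} (hs : 1 < s.re) :
    HasSum (fun k : ℕ => bt S (ps (ix n) (be α)) (p, k) * exp (-(oo S 1 (p, k) : ℂ) * s))
      (∑ x ∈ ix n, -log (1 - be α p x * ((p : ℕ) : ℂ) ^ (-s))) := by
  have h1 : ∀ k : ℕ, bt S (ps (ix n) (be α)) (p, k) * exp (-(oo S 1 (p, k) : ℂ) * s) =
      ∑ i ∈ ix n, (be α p i * ((p : ℕ) : ℂ) ^ (-s)) ^ (k + 1) / (k + 1) := by
    intro k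
    unfold bt ps oo
    rw [Finset.sum_div, Finset.sum_mul]
    refine Finset.sum_congr rfl fun i _ => ?_
    rw [mul_pow, cp p.2.1.ne_zero, ← exp_nat_mul]
    push_cast
    have e : -(((k : ℂ) + 1) * log ((p : ℕ) : ℂ)) * s = ((k : ℂ) + 1) * (-log ((p : ℕ) : ℂ) * s) := by
      ring
    simp only [e]
    ring
  simp_rw [h1]
  exact hasSum_sum fun i hi => exp_log_series (u_lt p h hi hs)

theorem exp_prime (p : PS S) (h : ∀ i < n, ‖α p i‖ ^ 2 < (p : ℕ)) {s : ℂ} (hs : 1 < s.re) :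
    exp (∑' k : ℕ, bt S (ps (ix n) (be α)) (p, k) * exp (-(oo S 1 (p, k) : ℂ) * s)) =
      ∏ x ∈ ix n, (1 - be α p x * ((p : ℕ) : ℂ) ^ (-s))⁻¹ := by
  rw [(hasSum_prime p h hs).tsum_eq, exp_sum]
  exact Finset.prod_congr rfl fun i hi => exp_neg_log (u_lt p h hi hs)

theorem real_term (i : PS S × ℕ) (x : ℝ) :
    bt S (ps (ix n) (be α)) i * exp (-(oo S 1 i : ℂ) * (x : ℂ)) =
      ((rb S n α i * Real.exp (-(oo S 1 i * x)) : ℝ) : ℂ) := by
  rw [bt_eq]
  push_cast
  rw [neg_mul]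

/-- the sum of the logarithm over one prime, at a real point -/
noncomputable def lp (S : Finset ℕ) (n : ℕ) (α : ℕ → ℕ → ℂ) (x : ℝ) (p : PS S) : ℝ :=
  ∑' k : ℕ, rb S n α (p, k) * Real.exp (-(oo S 1 (p, k) * x))

theorem summ_lp (p : PS S) (h : ∀ i < n, ‖α p i‖ ^ 2 < (p : ℕ)) {x : ℝ} (hx : 1 < x) :
    Summable fun k : ℕ => rb S n α (p, k) * Real.exp (-(oo S 1 (p, k) * x)) := by
  have h1 := (hasSum_prime p h (s := (x : ℂ)) (by simpa using hx)).summable
  simp_rw [real_term] at h1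
  exact_mod_cast h1

theorem lp_nonneg (x : ℝ) (p : PS S) : 0 ≤ lp S n α x p :=
  tsum_nonneg fun k => mul_nonneg (rb_nonneg _) (Real.exp_pos _).le

theorem lp_coe (x : ℝ) (p : PS S) :
    ∑' k : ℕ, bt S (ps (ix n) (be α)) (p, k) * exp (-(oo S 1 (p, k) : ℂ) * (x : ℂ)) =
      (lp S n α x p : ℂ) := by
  unfold lp
  rw [ofReal_tsum]
  exact tsum_congr fun _ => real_term _ _

/-- the partial Euler products at a point `s` -/
theorem part_prod (h : ∀ p : PS S, ∀ i < n, ‖α p i‖ ^ 2 < (p : ℕ)) {s : ℂ} (hs : 1 < s.re)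
    (X : ℕ) :
    exp (∑ p ∈ Finset.range X, if hp : p.Prime ∧ p ∉ S then
      ∑' k : ℕ, bt S (ps (ix n) (be α)) (⟨p, hp⟩, k) * exp (-(oo S 1 (⟨p, hp⟩, k) : ℂ) * s)
      else 0) =
    ∏ p ∈ (Finset.range X).filter (fun p => p.Prime ∧ p ∉ S),
        ∏ i ∈ Finset.range n, ∏ j ∈ Finset.range n,
          (1 - α p i * conj (α p j) * (p : ℂ) ^ (-s))⁻¹ := by
  classical
  rw [exp_sum, Finset.prod_filter]
  refine Finset.prod_congr rfl fun p _ => ?_
  split_ifs with hp
  · rw [← prod_ix]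
    exact exp_prime ⟨p, hp⟩ (h ⟨p, hp⟩) hs
  · exact exp_zero

/-- absolute convergence -/
theorem summ_all (h : ∀ p : PS S, ∀ i < n, ‖α p i‖ ^ 2 < (p : ℕ))
    (hE : ∀ s : ℂ, 1 < s.re → Tendsto (fun X : ℕ =>
      ∏ p ∈ (Finset.range X).filter (fun p => p.Prime ∧ p ∉ S),
        ∏ i ∈ Finset.range n, ∏ j ∈ Finset.range n,
          (1 - α p i * conj (α p j) * (p : ℂ) ^ (-s))⁻¹) atTop (𝓝 (R s / (s - 1)))) {x : ℝ}
    (hx : 1 < x) : Summable fun i : PS S × ℕ => rb S n α i * Real.exp (-(oo S 1 i * x)) := by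
  classical
  have hx' : 1 < (x : ℂ).re := by simpa using hx
  -- the bound of the partial sums
  have h1 := (hE x hx').norm
  obtain ⟨C, hC⟩ := h1.bddAbove_range
  set g : ℕ → ℝ := fun p => if hp : p.Prime ∧ p ∉ S then lp S n α x ⟨p, hp⟩ else 0 with hg
  have hg0 : ∀ p, 0 ≤ g p := by
    intro p
    simp only [hg]
    split_ifs with hp
    · exact lp_nonneg _ _
    · exact le_refl _
  have h2 : ∀ X : ℕ, Real.exp (∑ p ∈ Finset.range X, g p) ≤ C := by
    intro X
    have h3 := hC ⟨X, rfl⟩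
    simp only at h3
    rw [← part_prod h hx' X, Complex.norm_exp] at h3
    refine le_trans (le_of_eq ?_) h3
    rw [re_sum]
    congr 1
    refine Finset.sum_congr rfl fun p _ => ?_
    simp only [hg]
    split_ifs with hp
    · rw [lp_coe, ofReal_re]
    · simp
  have h4 : ∀ X : ℕ, ∑ p ∈ Finset.range X, g p ≤ Real.log C := by
    intro X
    have h5 := Real.log_le_log (Real.exp_pos _) (h2 X)
    rwa [Real.log_exp] at h5
  have h5 : Summable g := summable_of_sum_range_le hg0 h4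
  have h6 : Summable (lp S n α x) := by
    have h7 := h5.comp_injective (i := fun p : PS S => (p : ℕ)) Subtype.val_injective
    refine h7.congr fun p => ?_
    simp only [Function.comp_apply, hg]
    rw [dif_pos p.2]
  rw [summable_prod_of_nonneg fun i => mul_nonneg (rb_nonneg _) (Real.exp_pos _).le]
  exact ⟨fun p => summ_lp p (h p) hx, h6⟩

/-- **From the Euler product of a Rankin-Selberg L-function to the Dirichlet series.** -/
theorem main_EU : S_EU := by
  intro S n α R hR hα hE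
  have h : ∀ p : PS S, ∀ i < n, ‖α p i‖ ^ 2 < (p : ℕ) := fun p => hα p p.2.1 p.2.2
  have hco : ∀ i : PS S × ℕ, ‖∑ j ∈ Finset.range n, α i.1 j ^ (i.2 + 1)‖ ^ 2 *
      Real.log (i.1 : ℕ) = rb S n α i * oo S 1 i := by
    intro i
    unfold rb oo
    have h1 : (i.2 : ℝ) + 1 ≠ 0 := by positivity
    field_simp
    push_cast
    ring
  have hsum := fun {x : ℝ} (hx : 1 < x) => summ_all h hE hx
  refine ⟨fun x hx => ?_, fun s hs => ?_⟩
  · have hx' : 1 < (1 + x) / 2 := by linarith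
    refine Summable.of_nonneg_of_le (fun i => ?_) (fun i => ?_)
      ((hsum hx').mul_left (2 / (x - 1)))
    · have := i.1.log_pos
      positivity
    · rw [hco i]
      have h0 := oo_nonneg 1 i
      have h1 : oo S 1 i * ((x - 1) / 2) ≤ Real.exp (oo S 1 i * ((x - 1) / 2)) := by
        have := Real.add_one_le_exp (oo S 1 i * ((x - 1) / 2))
        linarith
      have h2 : oo S 1 i ≤ 2 / (x - 1) * Real.exp (oo S 1 i * ((x - 1) / 2)) := by
        have h3 : 0 < x - 1 := by linarith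
        rw [div_mul_eq_mul_div, le_div_iff₀ h3]
        linarith
      calc rb S n α i * oo S 1 i * Real.exp (-(x * oo S 1 i)) ≤
          rb S n α i * (2 / (x - 1) * Real.exp (oo S 1 i * ((x - 1) / 2))) *
            Real.exp (-(x * oo S 1 i)) := by
            have := rb_nonneg (n := n) (α := α) i
            gcongr
        _ = 2 / (x - 1) * (rb S n α i * (Real.exp (oo S 1 i * ((x - 1) / 2)) *
            Real.exp (-(x * oo S 1 i)))) := by ring
        _ = 2 / (x - 1) * (rb S n α i * Real.exp (-(oo S 1 i * ((1 + x) / 2)))) := by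
            rw [← Real.exp_add]
            congr 4
            ring
  · -- the Euler product converges to the exponential of the series
    have hnorm : ∀ {σ : ℝ}, 1 < σ → Summable fun i : PS S × ℕ =>
        ‖bt S (ps (ix n) (be α)) i‖ * Real.exp (-(oo S 1 i * σ)) := by
      intro σ hσ
      refine (hsum hσ).congr fun i => ?_
      rw [bt_eq, Complex.norm_real, Real.norm_of_nonneg (rb_nonneg _)]
    have hexp : ∀ {s : ℂ}, 1 < s.re →
        R s = (s - 1) * exp (Ds (bt S (ps (ix n) (be α))) (oo S 1) s) := by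
      intro s hs
      have h1 : Summable fun i : PS S × ℕ =>
          bt S (ps (ix n) (be α)) i * exp (-(oo S 1 i : ℂ) * s) := by
        refine Summable.of_norm ((hnorm hs).congr fun i => ?_)
        rw [norm_mul, Complex.norm_exp, neg_mul, neg_re, re_ofReal_mul]
      have h2 := h1.hasSum.prod_fiberwise (fun p => (h1.prod_factor p).hasSum)
      set g : ℕ → ℂ := fun p => if hp : p.Prime ∧ p ∉ S then
        ∑' k : ℕ, bt S (ps (ix n) (be α)) (⟨p, hp⟩, k) * exp (-(oo S 1 (⟨p, hp⟩, k) : ℂ) * s)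
          else 0 with hg
      have h3 : HasSum g (Ds (bt S (ps (ix n) (be α))) (oo S 1) s) := by
        rw [← Function.Injective.hasSum_iff (g := fun p : PS S => (p : ℕ))
          Subtype.val_injective]
        · have e : (g ∘ fun p : PS S => (p : ℕ)) = fun p : PS S =>
              ∑' k : ℕ, bt S (ps (ix n) (be α)) (p, k) * exp (-(oo S 1 (p, k) : ℂ) * s) := by
            funext p
            simp only [Function.comp_apply, hg]
            rw [dif_pos p.2]
          rw [e]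
          exact h2
        · intro x hx
          simp only [hg]
          rw [dif_neg]
          intro hp
          exact hx ⟨⟨x, hp⟩, rfl⟩
      have h4 := (continuous_exp.tendsto _).comp h3.tendsto_sum_nat
      have h5 : Tendsto (fun X : ℕ =>
          ∏ p ∈ (Finset.range X).filter (fun p => p.Prime ∧ p ∉ S),
            ∏ i ∈ Finset.range n, ∏ j ∈ Finset.range n,
              (1 - α p i * conj (α p j) * (p : ℂ) ^ (-s))⁻¹) atTop
          (𝓝 (exp (Ds (bt S (ps (ix n) (be α))) (oo S 1) s))) := by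
        refine h4.congr fun X => ?_
        exact part_prod h hs X
      have h6 := tendsto_nhds_unique (hE s hs) h5
      have h7 : s - 1 ≠ 0 := by
        intro h0
        rw [sub_eq_zero.1 h0] at hs
        simp at hs
      rw [← h6, mul_div_cancel₀ _ h7]
    have h7 : ∀ {s : ℂ}, 1 < s.re → s - 1 ≠ 0 := by
      intro s hs h0
      rw [sub_eq_zero.1 h0] at hs
      simp at hs
    refine ⟨?_, ?_⟩
    · rw [hexp hs]
      exact mul_ne_zero (h7 hs) (exp_ne_zero _)
    · have hd : HasDerivAt (Ds (bt S (ps (ix n) (be α))) (oo S 1)) _ s :=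
        Ds_hasDeriv (σ := (1 + s.re) / 2) (hnorm (by linarith)) (fun i => oo_nonneg 1 i)
          (by linarith)
      have h1 : R =ᶠ[𝓝 s] fun s => (s - 1) * exp (Ds (bt S (ps (ix n) (be α))) (oo S 1) s) := by
        filter_upwards [(isOpen_lt continuous_const continuous_re).mem_nhds hs] with u hu
        exact hexp hu
      have hd1 : HasDerivAt (fun s : ℂ => s - 1) 1 s := (hasDerivAt_id s).sub_const 1
      rw [(logDeriv_congr_nhds h1).eq_of_nhds, logDeriv_mul (f := fun s : ℂ => s - 1)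
        (g := fun s => exp (Ds (bt S (ps (ix n) (be α))) (oo S 1) s)) s (h7 hs) (exp_ne_zero _)
        hd1.differentiableAt hd.cexp.differentiableAt]
      have h2 : logDeriv (fun s => exp (Ds (bt S (ps (ix n) (be α))) (oo S 1) s)) s =
          -Ds (fun i : PS S × ℕ => ((‖∑ j ∈ Finset.range n, α i.1 j ^ (i.2 + 1)‖ ^ 2 *
            Real.log (i.1 : ℕ) : ℝ) : ℂ)) (oo S 1) s := by
        rw [logDeriv_apply, hd.cexp.deriv, mul_div_cancel_left₀ _ (exp_ne_zero _)]
        congr 2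
        funext i
        rw [bt_eq, hco i, ofReal_mul]
      rw [h2, logDeriv_apply, hd1.deriv, one_div]
      ring

end Pool.Agent.N95.BU
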